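import Pool.Agent.H58.TruncXi

namespace Pool.Agent.Results.MP_65850b_an.Disproof
open Complex Filter

/-- The kernel; the summation index `n ≥ 1` of the problem is `k + 1`. -/
noncomputable def Phi (t : ℝ) : ℝ := ∑' k : ℕ,
  (2 * Real.pi ^ 2 * ((k : ℝ) + 1) ^ 4 * Real.exp (9 * t) -
    3 * Real.pi * ((k : ℝ) + 1) ^ 2 * Real.exp (5 * t)) *
      Real.exp (-Real.pi * ((k : ℝ) + 1) ^ 2 * Real.exp (4 * t))

/-- The finite cosine transform. -/
noncomputable def H (R : ℝ) (z : ℂ) : ℂ := ∫ t in (0 : ℝ)..R, (Phi t : ℂ) * cos (z * t)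

theorem result : ∀ ε : ℝ, 0 < ε → ∃ R₀ : ℝ, 0 < R₀ ∧ ∀ R : ℝ, R₀ ≤ R → ∃ z : ℂ,
    H R z = 0 ∧ 1 ≤ |z.im| ∧
      ‖z - 4 * Real.pi * Real.exp (4 * R) * I‖ < ε * Real.exp (4 * R) := by
  intro ε hε
  obtain ⟨R₀, h⟩ := eventually_atTop.1 (H58.TruncXi.phi_zero (lt_min hε one_pos))
  refine ⟨max R₀ 1, lt_max_of_lt_right one_pos, fun R hR => ?_⟩
  have R0 : 0 ≤ R := zero_le_one.trans ((le_max_right _ _).trans hR)
  obtain ⟨z, h1, h2⟩ := h R ((le_max_left _ _).trans hR)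
  have A1 : 1 ≤ Real.exp (4 * R) := Real.one_le_exp (by linarith)
  refine ⟨z, ?_, ?_, h2.trans_le (by gcongr; exact min_le_left _ _)⟩
  · rw [← h1]
    refine intervalIntegral.integral_congr fun t ht => ?_
    rw [Set.uIcc_of_le R0] at ht
    simp only [H58.TruncXi.phi, max_eq_left ht.1]
    rfl
  · have h3 := (abs_im_le_norm _).trans_lt (h2.trans_le
      (mul_le_mul_of_nonneg_right (min_le_right _ _) (Real.exp_pos _).le))
    generalize Real.exp (4 * R) = A at h3 A1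
    simp at h3
    refine le_trans ?_ (le_abs_self _)
    nlinarith [(abs_lt.1 h3).1, Real.pi_gt_three]

end Pool.Agent.Results.MP_65850b_an.Disproof
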